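import Pool.Agent.H2.KL.Stm

set_option autoImplicit false

open Finset Module

namespace H99.KL

open H2.KL

section maps

variable {G : Type} [Group G] (K : Subgroup G) {V : Type} [AddCommGroup V] [Module ℂ V]
  (ρ : Representation ℂ G V) (U : Submodule ℂ V)

/-- the map `(u_q)_q ↦ ∑_q ρ(g_q) u_q` -/
noncomputable def bigMap [Fintype (G ⧸ K)] : ((G ⧸ K) → U) →ₗ[ℂ] V :=
  ∑ q : G ⧸ K, (ρ (Quotient.out q)) ∘ₗ U.subtype ∘ₗ LinearMap.proj q

theorem bigMap_apply [Fintype (G ⧸ K)] (u : (G ⧸ K) → U) :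
    bigMap K ρ U u = ∑ q : G ⧸ K, ρ (Quotient.out q) (u q : V) := by
  simp [bigMap, LinearMap.sum_apply]

theorem finrank_dom [Fintype (G ⧸ K)] [FiniteDimensional ℂ V] :
    finrank ℂ ((G ⧸ K) → U) = K.index * finrank ℂ U := by
  rw [Module.finrank_pi_fintype, Finset.sum_const, Finset.card_univ, smul_eq_mul]
  congr 1
  rw [Subgroup.index, Nat.card_eq_fintype_card]

end maps

theorem t_UP : S_UP := by
  intro G _ _ K _ V _ _ _ ρ hirr w hw
  classical
  have := Fintype.ofFinite G
  have : Fintype (G ⧸ K) := Fintype.ofFinite _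
  set U : Submodule ℂ V := Submodule.span ℂ (Set.range fun g : K => ρ g w) with hU
  have hUK : ∀ k ∈ K, ∀ u ∈ U, ρ k u ∈ U := by
    intro k hk u hu
    have : U ≤ U.comap (ρ k) := by
      rw [hU, Submodule.span_le]
      rintro _ ⟨g, rfl⟩
      simp only [Submodule.comap_coe, Set.mem_preimage, SetLike.mem_coe]
      apply Submodule.subset_span
      exact ⟨⟨k, hk⟩ * g, by simp [map_mul]⟩
    exact this hu
  have hwU : w ∈ U := Submodule.subset_span ⟨1, by simp⟩
  -- the range is invariant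
  have hmem : ∀ (g : G) (u : V), u ∈ U → ρ g u ∈ LinearMap.range (bigMap K ρ U) := by
    intro g u hu
    let q : G ⧸ K := (g : G ⧸ K)
    have hk : (Quotient.out q)⁻¹ * g ∈ K := by
      rw [← QuotientGroup.eq]
      exact Quotient.out_eq' q
    refine ⟨Pi.single q ⟨ρ ((Quotient.out q)⁻¹ * g) u, hUK _ hk u hu⟩, ?_⟩
    rw [bigMap_apply, Finset.sum_eq_single q]
    · rw [Pi.single_eq_same]
      rw [← Module.End.mul_apply, ← map_mul, mul_inv_cancel_left]
    · intro b _ hb
      rw [Pi.single_eq_of_ne hb]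
      simp
    · intro h
      exact absurd (Finset.mem_univ _) h
  let S : Subrepresentation ρ :=
    { toSubmodule := LinearMap.range (bigMap K ρ U)
      apply_mem_toSubmodule := by
        rintro g _ ⟨u, rfl⟩
        rw [bigMap_apply, map_sum]
        apply Submodule.sum_mem
        intro q _
        rw [← Module.End.mul_apply, ← map_mul]
        exact hmem _ _ (u q).2 }
  have := hirr
  have hS : S = ⊤ := by
    rcases eq_bot_or_eq_top S with h | h
    · exfalso
      have h1 : w ∈ S := by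
        have := hmem 1 w hwU
        rw [map_one] at this
        exact this
      rw [h] at h1
      exact hw h1
    · exact h
  have hsurj : LinearMap.range (bigMap K ρ U) = ⊤ := by
    have : S.toSubmodule = (⊤ : Subrepresentation ρ).toSubmodule := by rw [hS]
    exact this
  rw [← finrank_dom K U]
  have h1 := LinearMap.finrank_range_le (bigMap K ρ U)
  rw [hsurj, finrank_top] at h1
  exact h1

theorem t_DIMGE : S_DIMGE := by
  intro G _ _ K A _ _ hAK V _ _ _ ρ χ w hw hA hst
  classical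
  have := Fintype.ofFinite G
  have : Fintype (G ⧸ K) := Fintype.ofFinite _
  have : Fintype A := Fintype.ofFinite _
  have : Fintype K := Fintype.ofFinite _
  have hAn : A.Normal := inferInstance
  have hKn : K.Normal := inferInstance
  -- multiplicativity
  have hmul : ∀ a ∈ A, ∀ b ∈ A, χ (a * b) = χ a * χ b := by
    intro a ha b hb
    have h1 : χ (a * b) • w = (χ a * χ b) • w := by
      rw [← hA _ (mul_mem ha hb), map_mul, Module.End.mul_apply, hA b hb, map_smul, hA a ha,
        smul_smul, mul_comm]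
    exact smul_left_injective ℂ hw h1
  have hone : χ 1 = 1 := by
    have h1 : χ 1 • w = (1 : ℂ) • w := by
      rw [← hA _ (one_mem A), map_one, Module.End.one_apply, one_smul]
    exact smul_left_injective ℂ hw h1
  have hconj : ∀ (x : G), ∀ a ∈ A, x⁻¹ * a * x ∈ A := by
    intro x a ha
    have := hAn.conj_mem a ha x⁻¹
    rwa [inv_inv] at this
  have hconj' : ∀ (x : G), ∀ a ∈ A, x * a * x⁻¹ ∈ A := fun x a ha => hAn.conj_mem a ha x
  -- eigenvectors
  have heig : ∀ (y : G), ∀ a ∈ A, ρ a (ρ y w) = χ (y⁻¹ * a * y) • ρ y w := by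
    intro y a ha
    rw [← map_smul, ← hA _ (hconj y a ha), ← Module.End.mul_apply, ← Module.End.mul_apply,
      ← map_mul, ← map_mul]
    congr 2
    group
  let Sst : G → Prop := fun g => ∀ a ∈ A, χ (g⁻¹ * a * g) = χ a
  let E : G → (V →ₗ[ℂ] V) := fun x => ∑ a : A, χ (x⁻¹ * (a : G)⁻¹ * x) • ρ (a : G)
  have hE : ∀ x y : G, E x (ρ y w) =
      (∑ a : A, χ (x⁻¹ * (a : G)⁻¹ * x) * χ (y⁻¹ * (a : G) * y)) • ρ y w := by
    intro x y
    simp only [E, LinearMap.sum_apply, LinearMap.smul_apply]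
    rw [Finset.sum_smul]
    refine Finset.sum_congr rfl fun a _ => ?_
    rw [heig y a a.2, smul_smul]
  have hE1 : ∀ x y : G, Sst (y⁻¹ * x) → E x (ρ y w) = (Fintype.card A : ℂ) • ρ y w := by
    intro x y h
    rw [hE]
    congr 1
    have : ∀ a : A, χ (x⁻¹ * (a : G)⁻¹ * x) * χ (y⁻¹ * (a : G) * y) = 1 := by
      intro a
      have h1 := h (y⁻¹ * (a : G) * y) (hconj y a a.2)
      have h2 : (y⁻¹ * x)⁻¹ * (y⁻¹ * (a : G) * y) * (y⁻¹ * x) = x⁻¹ * (a : G) * x := by group
      rw [h2] at h1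
      rw [← h1, ← hmul _ (hconj x _ (inv_mem a.2)) _ (hconj x _ a.2)]
      have h3 : x⁻¹ * (a : G)⁻¹ * x * (x⁻¹ * (a : G) * x) = 1 := by group
      rw [h3, hone]
    rw [Finset.sum_congr rfl fun a _ => this a]
    simp
  have hE0 : ∀ x y : G, ¬ Sst (y⁻¹ * x) → E x (ρ y w) = 0 := by
    intro x y h
    have hex : ∃ b ∈ A, χ (x⁻¹ * b * x) ≠ χ (y⁻¹ * b * y) := by
      by_contra hcon
      push Not at hcon
      apply h
      intro a ha
      have h1 := hcon (y * a * y⁻¹) (hconj' y a ha)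
      have h2 : x⁻¹ * (y * a * y⁻¹) * x = (y⁻¹ * x)⁻¹ * a * (y⁻¹ * x) := by group
      have h3 : y⁻¹ * (y * a * y⁻¹) * y = a := by group
      rw [h2, h3] at h1
      exact h1
    obtain ⟨b, hb, hne⟩ := hex
    -- sum is invariant
    set s : ℂ := ∑ a : A, χ (x⁻¹ * (a : G)⁻¹ * x) * χ (y⁻¹ * (a : G) * y) with hs
    set c : ℂ := χ (x⁻¹ * b⁻¹ * x) * χ (y⁻¹ * b * y) with hc
    have h1 : s = c * s := by
      conv_lhs => rw [hs]
      rw [hs, Finset.mul_sum]
      refine (Fintype.sum_equiv (Equiv.mulRight (⟨b, hb⟩ : A)) _ _ ?_).symm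
      intro a
      simp only [Equiv.coe_mulRight, Subgroup.coe_mul]
      have h2 : x⁻¹ * ((a : G) * b)⁻¹ * x = (x⁻¹ * b⁻¹ * x) * (x⁻¹ * (a : G)⁻¹ * x) := by group
      have h3 : y⁻¹ * ((a : G) * b) * y = (y⁻¹ * (a : G) * y) * (y⁻¹ * b * y) := by group
      rw [h2, h3, hmul _ (hconj x _ (inv_mem hb)) _ (hconj x _ (inv_mem a.2)),
        hmul _ (hconj y _ a.2) _ (hconj y _ hb), hc]
      ring
    have hc1 : c ≠ 1 := by
      intro h2
      apply hne
      have h3 : χ (x⁻¹ * b * x) * χ (x⁻¹ * b⁻¹ * x) = 1 := by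
        rw [← hmul _ (hconj x _ hb) _ (hconj x _ (inv_mem hb)), ← hone]
        congr 1
        group
      calc χ (x⁻¹ * b * x) = χ (x⁻¹ * b * x) * c := by rw [h2, mul_one]
        _ = (χ (x⁻¹ * b * x) * χ (x⁻¹ * b⁻¹ * x)) * χ (y⁻¹ * b * y) := by rw [hc]; ring
        _ = χ (y⁻¹ * b * y) := by rw [h3, one_mul]
    have h4 : s = 0 := by
      have h5 : (c - 1) * s = 0 := by
        rw [sub_mul, one_mul, ← h1, sub_self]
      rcases mul_eq_zero.mp h5 with h6 | h6
      · exact absurd (sub_eq_zero.mp h6) hc1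
      · exact h6
    rw [hE, ← hs, h4, zero_smul]
  -- the projections
  let P : G → (V →ₗ[ℂ] V) := fun x => ∑ k : K, E (x * k)
  have hP0 : ∀ x y : G, y⁻¹ * x ∉ K → P x (ρ y w) = 0 := by
    intro x y h
    simp only [P, LinearMap.sum_apply]
    apply Finset.sum_eq_zero
    intro k _
    apply hE0
    intro h1
    apply h
    have h2 := hst _ h1
    have h3 : y⁻¹ * x = y⁻¹ * (x * k) * (k : G)⁻¹ := by group
    rw [h3]
    exact mul_mem h2 (inv_mem k.2)
  let c : ℂ := ((Finset.univ.filter fun k : K => Sst k).card : ℂ) * Fintype.card A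
  have hc : c ≠ 0 := by
    apply mul_ne_zero
    · exact_mod_cast Finset.card_ne_zero.mpr ⟨1, by simp [Sst]⟩
    · norm_cast
      exact Fintype.card_ne_zero
  have hP1 : ∀ (x : G) (k' : K), P x (ρ (x * k') w) = c • ρ (x * k') w := by
    intro x k'
    simp only [P, LinearMap.sum_apply]
    have h1 : ∀ k : K, E (x * k) (ρ (x * k') w) =
        (if Sst ((k'⁻¹ * k : K) : G) then (Fintype.card A : ℂ) else 0) • ρ (x * k') w := by
      intro k
      have h2 : (x * (k' : G))⁻¹ * (x * k) = ((k'⁻¹ * k : K) : G) := by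
        rw [Subgroup.coe_mul, Subgroup.coe_inv]; group
      split_ifs with h3
      · exact hE1 _ _ (by rw [h2]; exact h3)
      · rw [hE0 _ _ (by rw [h2]; exact h3), zero_smul]
    rw [Finset.sum_congr rfl fun k _ => h1 k, ← Finset.sum_smul]
    congr 1
    rw [Fintype.sum_equiv (Equiv.mulLeft (k'⁻¹ : K))
      (fun k : K => if Sst ((k'⁻¹ * k : K) : G) then (Fintype.card A : ℂ) else 0)
      (fun k : K => if Sst (k : G) then (Fintype.card A : ℂ) else 0) (fun k => rfl)]
    rw [← Finset.sum_filter, Finset.sum_const, nsmul_eq_mul]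
  set U : Submodule ℂ V := Submodule.span ℂ (Set.range fun g : K => ρ g w) with hU
  have hU0 : ∀ x y : G, y⁻¹ * x ∉ K → ∀ u ∈ U, P x (ρ y u) = 0 := by
    intro x y h u hu
    have h1 : U ≤ LinearMap.ker (P x ∘ₗ ρ y) := by
      rw [hU, Submodule.span_le]
      rintro _ ⟨g, rfl⟩
      simp only [SetLike.mem_coe, LinearMap.mem_ker, LinearMap.comp_apply]
      have h0 : ρ y (ρ (g : G) w) = ρ (y * g) w := by rw [map_mul, Module.End.mul_apply]
      rw [h0]
      apply hP0
      intro h2
      apply h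
      have h3 : y⁻¹ * x = g * ((y * g)⁻¹ * x) := by group
      rw [h3]
      exact mul_mem g.2 h2
    exact h1 hu
  have hU1 : ∀ x : G, ∀ u ∈ U, P x (ρ x u) = c • ρ x u := by
    intro x u hu
    have h1 : U ≤ LinearMap.ker (P x ∘ₗ ρ x - c • ρ x) := by
      rw [hU, Submodule.span_le]
      rintro _ ⟨g, rfl⟩
      simp only [SetLike.mem_coe, LinearMap.mem_ker, LinearMap.comp_apply, LinearMap.sub_apply,
        LinearMap.smul_apply]
      have h0 : ρ x (ρ (g : G) w) = ρ (x * g) w := by rw [map_mul, Module.End.mul_apply]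
      rw [h0, hP1, sub_self]
    have h2 := h1 hu
    simp only [LinearMap.mem_ker, LinearMap.comp_apply, LinearMap.sub_apply,
        LinearMap.smul_apply] at h2
    exact sub_eq_zero.mp h2
  have hinj : Function.Injective (bigMap K ρ U) := by
    rw [← LinearMap.ker_eq_bot, LinearMap.ker_eq_bot']
    intro u hu
    rw [bigMap_apply] at hu
    funext q
    have h1 : P (Quotient.out q) (∑ q' : G ⧸ K, ρ (Quotient.out q') (u q' : V)) = 0 := by
      rw [hu, map_zero]
    rw [map_sum, Finset.sum_eq_single q] at h1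
    · rw [hU1 _ _ (u q).2] at h1
      rcases smul_eq_zero.mp h1 with h2 | h2
      · exact absurd h2 hc
      · have h3 : ρ (Quotient.out q)⁻¹ (ρ (Quotient.out q) (u q : V)) = 0 := by rw [h2, map_zero]
        rw [← Module.End.mul_apply, ← map_mul, inv_mul_cancel, map_one, Module.End.one_apply] at h3
        exact Subtype.ext h3
    · intro q' _ hq'
      apply hU0 _ _ _ _ (u q').2
      intro h2
      apply hq'
      have h3 : ((Quotient.out q' : G) : G ⧸ K) = ((Quotient.out q : G) : G ⧸ K) :=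
        QuotientGroup.eq.mpr h2
      rw [QuotientGroup.out_eq', QuotientGroup.out_eq'] at h3
      exact h3
    · intro h
      exact absurd (Finset.mem_univ _) h
  rw [← finrank_dom K U]
  exact LinearMap.finrank_le_finrank_of_injective hinj

end H99.KL
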