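import Pool.Agent.H2.KL.Stm

set_option autoImplicit false

open Finset Module

open scoped MonoidAlgebra

namespace H99.KL

open H2.KL

theorem exists_simple (R : Type) [Ring R] (M : Type) [AddCommGroup M] [Module R M] (x : M)
    (hx : x ≠ 0) : ∃ (Q : Type) (_ : AddCommGroup Q) (_ : Module R Q)
      (f : (Submodule.span R {x} : Submodule R M) →ₗ[R] Q), IsSimpleModule R Q ∧
      Function.Surjective f ∧ f ⟨x, Submodule.mem_span_singleton_self x⟩ ≠ 0 := by
  let C : Submodule R M := Submodule.span R {x}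
  let e' : C := ⟨x, Submodule.mem_span_singleton_self x⟩
  have hCnt : Nontrivial C := ⟨⟨e', 0, fun h => hx (congrArg Subtype.val h)⟩⟩
  have hfin : Module.Finite R C := Module.Finite.span_singleton R x
  obtain ⟨N, hN, -⟩ := (eq_top_or_exists_le_coatom (⊥ : Submodule R C)).resolve_left bot_ne_top
  have heN : e' ∉ N := by
    intro h
    apply hN.1
    rw [eq_top_iff]
    rintro ⟨y, hy⟩ -
    obtain ⟨r, rfl⟩ := Submodule.mem_span_singleton.mp hy
    exact N.smul_mem r h
  refine ⟨C ⧸ N, inferInstance, inferInstance, N.mkQ, isSimpleModule_iff_isCoatom.mpr hN,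
    N.mkQ_surjective, ?_⟩
  intro h
  exact heN ((Submodule.Quotient.mk_eq_zero N).mp h)

theorem ofModule_apply (G : Type) [Group G] (M : Type) [AddCommGroup M] [Module ℂ[G] M] (g : G)
    (m : RestrictScalars ℂ ℂ[G] M) :
    Representation.ofModule (k := ℂ) (G := G) M g m =
      (RestrictScalars.addEquiv ℂ ℂ[G] M).symm
        (MonoidAlgebra.single g (1 : ℂ) • RestrictScalars.addEquiv ℂ ℂ[G] M m) := by
  simp [Representation.ofModule, RestrictScalars.lsmul_apply_apply]

attribute [local instance] RestrictScalars.moduleOrig in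
set_option backward.isDefEq.respectTransparency false in
theorem fin_restrict (G : Type) [Group G] [Finite G] (M : Type) [AddCommGroup M] [Module ℂ[G] M]
    [Module.Finite ℂ[G] M] : FiniteDimensional ℂ (RestrictScalars ℂ ℂ[G] M) := by
  have h1 : Module.Finite ℂ ℂ[G] := inferInstance
  have h2 : Module.Finite ℂ[G] (RestrictScalars ℂ ℂ[G] M) := ‹Module.Finite ℂ[G] M›
  exact Module.Finite.trans ℂ[G] (RestrictScalars ℂ ℂ[G] M)

set_option backward.isDefEq.respectTransparency false in
theorem t_EXI : S_EXI := by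
  intro G _ _ H lam
  classical
  have := Fintype.ofFinite G
  have := Fintype.ofFinite H
  obtain ⟨e, he, he0⟩ : ∃ e : ℂ[G], (∀ h : H, MonoidAlgebra.single (h : G) (1 : ℂ) * e =
      algebraMap ℂ ℂ[G] ((lam h : ℂˣ) : ℂ) * e) ∧ e ≠ 0 := by
    refine ⟨∑ x : H, MonoidAlgebra.single (x : G) (((lam x)⁻¹ : ℂˣ) : ℂ), ?_, ?_⟩
    · intro h
      rw [← Algebra.smul_def]
      rw [Finset.mul_sum, Finset.smul_sum]
      refine Fintype.sum_equiv (Equiv.mulLeft h) _ _ fun x => ?_
      rw [MonoidAlgebra.single_mul_single, one_mul, MonoidAlgebra.smul_single]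
      simp [mul_comm]
    · intro h
      have h1 : MonoidAlgebra.coeff (∑ x : H,
          MonoidAlgebra.single (x : G) (((lam x)⁻¹ : ℂˣ) : ℂ)) 1 = 1 := by
        rw [MonoidAlgebra.coeff_sum, Finsupp.finsetSum_apply]
        rw [Finset.sum_eq_single (1 : H)]
        · simp
        · intro b _ hb
          rw [MonoidAlgebra.coeff_single, Finsupp.single_apply, if_neg]
          intro h2
          exact hb (Subtype.ext h2)
        · intro h2
          exact absurd (Finset.mem_univ _) h2
      rw [h] at h1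
      simp at h1
  obtain ⟨Q, _, _, f, hQ, hf, hne⟩ := exists_simple ℂ[G] ℂ[G] e he0
  set e' : (Submodule.span ℂ[G] {e} : Submodule ℂ[G] ℂ[G]) :=
    ⟨e, Submodule.mem_span_singleton_self e⟩ with he'
  have hfinC : Module.Finite ℂ[G] (Submodule.span ℂ[G] {e} : Submodule ℂ[G] ℂ[G]) :=
    Module.Finite.span_singleton _ _
  have hfinQ : Module.Finite ℂ[G] Q := Module.Finite.of_surjective f hf
  refine ⟨RestrictScalars ℂ ℂ[G] Q, inferInstance, inferInstance, fin_restrict G Q,
    Representation.ofModule (k := ℂ) (G := G) Q,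
    (RestrictScalars.addEquiv ℂ ℂ[G] Q).symm (f e'),
    (Representation.isSimpleModule_iff_irreducible_ofModule Q).mp hQ, ?_, ?_⟩
  · intro h
    apply hne
    have h1 := congrArg (RestrictScalars.addEquiv ℂ ℂ[G] Q) h
    rw [AddEquiv.apply_symm_apply, map_zero] at h1
    exact h1
  · intro x
    rw [ofModule_apply, AddEquiv.apply_symm_apply]
    rw [← map_smul f]
    have h1 : MonoidAlgebra.single (x : G) (1 : ℂ) • e' =
        algebraMap ℂ ℂ[G] ((lam x : ℂˣ) : ℂ) • e' := by
      apply Subtype.ext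
      exact he x
    rw [h1, map_smul]
    rfl

end H99.KL
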